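import Pool.Agent.H26.HigC

set_option autoImplicit false

open Pool.Agent.H26.Hig in
theorem Pool.Agent.Results.MP_3b1797_co.RegularN.result :
    ∃ (P : Type) (_ : PartialOrder P),
      (∀ C : Set P, IsChain (· ≤ ·) C → C.Nonempty →
        (∃ s, IsLUB C s ∧ ∀ x, x < s → ∃ c ∈ C, x < c) ∧
        (∃ i, IsGLB C i ∧ ∀ x, i < x → ∃ c ∈ C, c < x)) ∧
      (∀ K : Set P, (∀ M : Set P, IsMaxChain (· ≤ ·) M → (K ∩ M).Nonempty) →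
        (∀ x ∈ K, ¬ ∀ M : Set P, IsMaxChain (· ≤ ·) M → ((K \ {x}) ∩ M).Nonempty) →
        IsAntichain (· ≤ ·) K) ∧
      ∃ a b c d : P, a ≠ b ∧ a ≠ c ∧ a ≠ d ∧ b ≠ c ∧ b ≠ d ∧ c ≠ d ∧
        a < c ∧ b ⋖ c ∧ b < d ∧
        ¬ a ≤ b ∧ ¬ b ≤ a ∧ ¬ a ≤ d ∧ ¬ d ≤ a ∧ ¬ c ≤ d ∧ ¬ d ≤ c := by
  refine ⟨P, inferInstance, fun C hC hne => ⟨reg_sup C hC hne, reg_inf C hC hne⟩,
    fun K h1 h2 => (min_cut K h1 h2).isAntichain _, ?_⟩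
  obtain ⟨a, b, c, d, h1, h2, h3, h4, h5, h6, h7, h8, h9⟩ := has_N
  exact ⟨a, b, c, d, fun h => h4 h.le, h1.ne, fun h => h6 h.le, h2.lt.ne, h3.ne, fun h => h8 h.le,
    h1, h2, h3, h4, h5, h6, h7, h8, h9⟩
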